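import Mathlib

/-!
# Brick P4 of helper54 (project PC): elementary digit lemmas
-/

set_option autoImplicit false

namespace Pool.Agent.K3h87.PC

open Finset

lemma sum_lt_pow {b : ℕ} (g : ℕ → ℕ) (N : ℕ) (hg : ∀ i < N, g i < b) :
    ∑ i ∈ range N, g i * b ^ i < b ^ N := by
  induction N with
  | zero => simp
  | succ n ih =>
    rw [sum_range_succ]
    have h1 := ih (fun i hi => hg i (by omega))
    have h2 : g n + 1 ≤ b := hg n (by omega)
    calc _ < b ^ n + g n * b ^ n := by omega
      _ = (g n + 1) * b ^ n := by ring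
      _ ≤ b * b ^ n := Nat.mul_le_mul_right _ h2
      _ = b ^ (n + 1) := by ring

lemma sum_digits_mod (b x : ℕ) (M : ℕ) :
    ∑ i ∈ range M, (x / b ^ i % b) * b ^ i = x % b ^ M := by
  induction M with
  | zero => simp [Nat.mod_one]
  | succ n ih =>
    rw [sum_range_succ, ih, Nat.mod_pow_succ, mul_comm (b ^ n)]

lemma ofDigits_range (b : ℕ) (g : ℕ → ℕ) (n : ℕ) :
    Nat.ofDigits b ((List.range n).map g) = ∑ i ∈ range n, g i * b ^ i := by
  induction n with
  | zero => simp
  | succ n ih =>
    rw [List.range_succ, List.map_append, Nat.ofDigits_append, ih, sum_range_succ]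
    simp [mul_comm]

/-- a number with a symmetric string of digits is a palindrome -/
lemma digits_sym {b : ℕ} (hb : 2 ≤ b) (g : ℕ → ℕ) (N : ℕ) (hN : 0 < N) (hg : ∀ i < N, g i < b)
    (h0 : g (N - 1) ≠ 0) (hs : ∀ i < N, g (N - 1 - i) = g i) :
    (Nat.digits b (∑ i ∈ range N, g i * b ^ i)).reverse =
      Nat.digits b (∑ i ∈ range N, g i * b ^ i) := by
  have h : Nat.digits b (∑ i ∈ range N, g i * b ^ i) = (List.range N).map g := by
    rw [← ofDigits_range, Nat.digits_ofDigits b (by omega)]
    · intro x hx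
      rw [List.mem_map] at hx
      obtain ⟨i, hi, rfl⟩ := hx
      exact hg i (List.mem_range.1 hi)
    · intro hne
      rw [List.getLast_eq_getElem]
      simpa using h0
  rw [h]
  apply List.ext_getElem
  · simp
  · intro i h1 h2
    have h3 : i < N := by simpa using h2
    rw [List.getElem_reverse]
    simp only [List.getElem_map, List.getElem_range, List.length_map, List.length_range]
    exact hs i h3

/-- the number with the reversed digits (same as `rv`) -/
def rw' (b M x : ℕ) : ℕ := ∑ i ∈ range M, (x / b ^ i % b) * b ^ (M - 1 - i)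

lemma rw_eq (b M x : ℕ) : rw' b M x = ∑ j ∈ range M, (x / b ^ (M - 1 - j) % b) * b ^ j := by
  unfold rw'
  rw [← sum_range_reflect]
  refine sum_congr rfl fun j hj => ?_
  rw [mem_range] at hj
  rw [show M - 1 - (M - 1 - j) = j by omega]

lemma rw_lt {b : ℕ} (hb : 2 ≤ b) (M x : ℕ) : rw' b M x < b ^ M := by
  rw [rw_eq]
  exact sum_lt_pow _ _ fun i _ => Nat.mod_lt _ (by omega)

/-- the digit string -/
def gg (b L M x : ℕ) (E : ℕ → ℕ) (i : ℕ) : ℕ :=
  if i < M then x / b ^ (M - 1 - i) % b else
    if i < M + (2 * L + 1) then E (i - M) else x / b ^ (i - (M + (2 * L + 1))) % b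

lemma gg_sum (b L M x : ℕ) (E : ℕ → ℕ) (hx : x < b ^ M) :
    ∑ i ∈ range (2 * L + 1 + 2 * M), gg b L M x E i * b ^ i =
      x * b ^ (2 * L + 1 + M) + b ^ M * (∑ k ∈ range (2 * L + 1), E k * b ^ k) + rw' b M x := by
  rw [show 2 * L + 1 + 2 * M = M + (2 * L + 1) + M by ring, sum_range_add, sum_range_add]
  have h1 : ∑ i ∈ range M, gg b L M x E i * b ^ i = rw' b M x := by
    rw [rw_eq]
    refine sum_congr rfl fun i hi => ?_
    rw [mem_range] at hi
    rw [gg, if_pos hi]
  have h2 : ∑ i ∈ range (2 * L + 1), gg b L M x E (M + i) * b ^ (M + i) =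
      b ^ M * (∑ k ∈ range (2 * L + 1), E k * b ^ k) := by
    rw [mul_sum]
    refine sum_congr rfl fun i hi => ?_
    rw [mem_range] at hi
    rw [gg, if_neg (by omega), if_pos (by omega), Nat.add_sub_cancel_left, pow_add]
    ring
  have h3 : ∑ i ∈ range M, gg b L M x E (M + (2 * L + 1) + i) * b ^ (M + (2 * L + 1) + i) =
      x * b ^ (2 * L + 1 + M) := by
    have : x = ∑ i ∈ range M, (x / b ^ i % b) * b ^ i := by
      rw [sum_digits_mod, Nat.mod_eq_of_lt hx]
    conv_rhs => rw [this, sum_mul]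
    refine sum_congr rfl fun i hi => ?_
    rw [mem_range] at hi
    rw [gg, if_neg (by omega), if_neg (by omega), Nat.add_sub_cancel_left]
    rw [pow_add _ (M + (2 * L + 1)) i, show M + (2 * L + 1) = 2 * L + 1 + M by ring]
    ring
  rw [h1, h2, h3]
  ring

lemma gg_sym (b L M x : ℕ) (E : ℕ → ℕ) (hE : ∀ k ≤ 2 * L, E (2 * L - k) = E k) :
    ∀ i < 2 * L + 1 + 2 * M, gg b L M x E (2 * L + 1 + 2 * M - 1 - i) = gg b L M x E i := by
  intro i hi
  unfold gg
  by_cases h1 : i < M
  · rw [if_neg (by omega), if_neg (by omega), if_pos h1]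
    congr 3
    omega
  · by_cases h2 : i < M + (2 * L + 1)
    · rw [if_neg (by omega), if_pos (by omega), if_neg h1, if_pos h2]
      rw [← hE (i - M) (by omega)]
      congr 1
      omega
    · rw [if_pos (by omega), if_neg h1, if_neg h2]
      congr 3
      omega

end Pool.Agent.K3h87.PC
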