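import Pool.Agent.K3h54.PC.Stm
import Pool.Agent.K3h87.PC.P4core

/-!
# Brick P4 of helper54 (project PC): the digits of `b ^ (M - 1) * pv + hx`
-/

set_option autoImplicit false

namespace Pool.Agent.K3h87.PC

open Finset
open Pool.Agent.K3h54.PC
open Pool.Agent.W89.PW (pv)
open Pool.Agent.H181R5.PBT9 (pvl_eq dgl dgl_lt dgl_L)

lemma rv_eq (b M x : ℕ) : rv b M x = rw' b M x := rfl

lemma pv_E {b s t L : ℕ} (hb : 2 ≤ b) (hst : s + t = b + 1) (m : Fin L → Fin s × Fin t) :
    ∃ E : ℕ → ℕ, (∀ k, E k < b) ∧ (∀ k ≤ 2 * L, E (2 * L - k) = E k) ∧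
      pv b s t L m = b ^ (2 * L + 2) + b * (∑ k ∈ range (2 * L + 1), E k * b ^ k) + 1 := by
  have hb1 : 1 < b := by omega
  refine ⟨fun k => dgl b 1 (L + 1) (Pool.Agent.W571.PW.Dig.dg b s t L hb1 hst m)
    (Nat.dist (k + 1) (L + 1)), fun k => dgl_lt hb1 _ _ _, ?_, ?_⟩
  · intro k hk
    have : Nat.dist (2 * L - k + 1) (L + 1) = Nat.dist (k + 1) (L + 1) := by
      unfold Nat.dist
      omega
    simp only [this]
  · rw [Pool.Agent.W571.PW.Dig.pv_eq hb1 hst, pvl_eq 1 (L + 1) (by omega), sum_range_succ,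
      show 2 * (L + 1) = (2 * L + 1) + 1 by ring, sum_range_succ']
    have e1 : Nat.dist (2 * L + 1 + 1) (L + 1) = L + 1 := by
      unfold Nat.dist
      omega
    have e2 : Nat.dist 0 (L + 1) = L + 1 := by
      unfold Nat.dist
      omega
    rw [e1, e2, dgl_L, mul_sum]
    have e3 : ∑ k ∈ range (2 * L + 1), dgl b 1 (L + 1) (Pool.Agent.W571.PW.Dig.dg b s t L hb1 hst m)
        (Nat.dist (k + 1) (L + 1)) * b ^ (k + 1) =
        ∑ k ∈ range (2 * L + 1), b * (dgl b 1 (L + 1) (Pool.Agent.W571.PW.Dig.dg b s t L hb1 hst m)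
        (Nat.dist (k + 1) (L + 1)) * b ^ k) := by
      refine sum_congr rfl fun k _ => ?_
      ring
    rw [e3]
    ring

lemma under {b M x : ℕ} (hb : 2 ≤ b) (hM : 1 ≤ M) (h1 : b ^ (M - 1) ≤ x) (L : ℕ) :
    b ^ (2 * L + 1 + M) + b ^ (M - 1) ≤ x * b ^ (2 * L + 1 + M) + rv b M x := by
  have hx0 : 0 < x := lt_of_lt_of_le (pow_pos (by omega) _) h1
  by_cases hx : x = 1
  · subst hx
    have hM1 : M = 1 := by
      by_contra hne
      have : b ^ 1 ≤ b ^ (M - 1) := Nat.pow_le_pow_right (by omega) (by omega)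
      rw [pow_one] at this
      omega
    subst hM1
    have : rv b 1 1 = 1 := by
      simp [rv]
      exact Nat.mod_eq_of_lt (by omega)
    rw [this]
    simp
  · have h2 : 2 * b ^ (2 * L + 1 + M) ≤ x * b ^ (2 * L + 1 + M) := Nat.mul_le_mul_right _ (by omega)
    have h3 : b ^ (M - 1) ≤ b ^ (2 * L + 1 + M) := Nat.pow_le_pow_right (by omega) (by omega)
    omega

lemma hx_add {b M x : ℕ} (hb : 2 ≤ b) (hM : 1 ≤ M) (h1 : b ^ (M - 1) ≤ x) (L : ℕ) :
    hx b M L x + (b ^ (2 * L + 1 + M) + b ^ (M - 1)) = x * b ^ (2 * L + 1 + M) + rv b M x := by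
  unfold hx
  exact Nat.sub_add_cancel (under hb hM h1 L)

lemma rv_par {b M x : ℕ} (hodd : Odd b) (hx : x < b ^ M) : rv b M x ≡ x [MOD 2] := by
  have hb : ((b : ℕ) : ZMod 2) = 1 := by
    have := (ZMod.natCast_eq_one_iff_odd).2 hodd
    exact this
  rw [← ZMod.natCast_eq_natCast_iff]
  have e : x = ∑ i ∈ range M, (x / b ^ i % b) * b ^ i := by
    rw [sum_digits_mod, Nat.mod_eq_of_lt hx]
  conv_rhs => rw [e]
  unfold rv
  push_cast
  simp [hb]

theorem main : StP4 := by
  intro b s t M x hb hst hM hx1 hx2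
  have hb0 : 0 < b := by omega
  have hp0 : 0 < b ^ (M - 1) := pow_pos hb0 _
  have hMM : b ^ M = b * b ^ (M - 1) := by
    rw [← pow_succ', Nat.sub_add_cancel hM]
  refine ⟨fun L m => ?_, ?_, ?_⟩
  · obtain ⟨E, hE1, hE2, hE3⟩ := pv_E hb hst m
    set w := ∑ k ∈ range (2 * L + 1), E k * b ^ k with hw
    have hwlt : w < b ^ (2 * L + 1) := sum_lt_pow E _ fun i _ => hE1 i
    have hrlt : rv b M x < b ^ M := rw_lt hb M x
    have hadd := hx_add hb hM hx1 L
    have hn : b ^ (M - 1) * pv b s t L m + hx b M L x =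
        x * b ^ (2 * L + 1 + M) + b ^ M * w + rv b M x := by
      have h1 : b ^ (M - 1) * pv b s t L m = b ^ (2 * L + 1 + M) + b ^ (M - 1) + b ^ M * w := by
        rw [hE3, hMM, show 2 * L + 1 + M = (M - 1) + (2 * L + 2) by omega, pow_add]
        ring
      rw [h1]
      omega
    have hsum := gg_sum b L M x E hx2
    rw [← hw, ← rv_eq, ← hn] at hsum
    have hgg : ∀ i < 2 * L + 1 + 2 * M, gg b L M x E i < b := by
      intro i _
      unfold gg
      split_ifs
      · exact Nat.mod_lt _ hb0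
      · exact hE1 _
      · exact Nat.mod_lt _ hb0
    have hsym := gg_sym b L M x E hE2
    have htop : x / b ^ (M - 1) < b := by
      rw [Nat.div_lt_iff_lt_mul hp0, ← hMM]
      exact hx2
    have htop0 : 0 < x / b ^ (M - 1) := Nat.div_pos hx1 hp0
    have hg0 : gg b L M x E 0 = x / b ^ (M - 1) := by
      rw [gg, if_pos (by omega), Nat.sub_zero, Nat.mod_eq_of_lt htop]
    have hgN : gg b L M x E (2 * L + 1 + 2 * M - 1) ≠ 0 := by
      have := hsym 0 (by omega)
      rw [Nat.sub_zero] at this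
      rw [this, hg0]
      omega
    have hsmall : b ^ M * w + rv b M x < b ^ (2 * L + 1 + M) := by
      calc b ^ M * w + rv b M x < b ^ M * w + b ^ M := by omega
        _ = b ^ M * (w + 1) := by ring
        _ ≤ b ^ M * b ^ (2 * L + 1) := Nat.mul_le_mul_left _ hwlt
        _ = b ^ (2 * L + 1 + M) := by rw [← pow_add]; congr 1; ring
    refine ⟨?_, ?_, ?_, ?_, ?_⟩
    · rw [← hsum]
      exact sum_lt_pow _ _ hgg
    · rw [← hsum]
      exact digits_sym hb _ _ (by omega) hgg hgN hsym
    · rw [hn, show x * b ^ (2 * L + 1 + M) + b ^ M * w + rv b M x =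
        (b ^ M * w + rv b M x) + x * b ^ (2 * L + 1 + M) by ring,
        Nat.add_mul_div_right _ _ (pow_pos hb0 _), Nat.div_eq_of_lt hsmall, zero_add]
    · have h1 : (b ^ (M - 1) * pv b s t L m + hx b M L x) / b ^ M = x * b ^ (2 * L + 1) + w := by
        rw [hn, show x * b ^ (2 * L + 1 + M) + b ^ M * w + rv b M x =
          rv b M x + (x * b ^ (2 * L + 1) + w) * b ^ M by rw [pow_add]; ring,
          Nat.add_mul_div_right _ _ (pow_pos hb0 _), Nat.div_eq_of_lt hrlt, zero_add]
      have h2 : pv b s t L m / b = b ^ (2 * L + 1) + w := by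
        rw [hE3, show b ^ (2 * L + 2) + b * w + 1 = 1 + (b ^ (2 * L + 1) + w) * b by ring,
          Nat.add_mul_div_right _ _ hb0, Nat.div_eq_of_lt (by omega), zero_add]
      rw [h1, h2, mul_comm x, Nat.mul_add_mod, Nat.add_mod_left]
    · intro hc
      have hnb : (b ^ (M - 1) * pv b s t L m + hx b M L x).Coprime b := by
        have h0 : ∃ k, b ^ (M - 1) * pv b s t L m + hx b M L x = x / b ^ (M - 1) + b * k := by
          have h1 : ∃ k, rv b M x = x / b ^ (M - 1) + b * k := by
            rw [rv_eq, rw_eq]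
            obtain ⟨M', rfl⟩ : ∃ M', M = M' + 1 := ⟨M - 1, by omega⟩
            rw [sum_range_succ']
            refine ⟨∑ k ∈ range M', x / b ^ (M' + 1 - 1 - (k + 1)) % b * b ^ k, ?_⟩
            rw [mul_sum, pow_zero, mul_one, Nat.sub_zero, Nat.mod_eq_of_lt htop, add_comm]
            congr 1
            refine sum_congr rfl fun k _ => ?_
            ring
          obtain ⟨k, hk⟩ := h1
          refine ⟨x * b ^ (2 * L + M) + b ^ (M - 1) * w + k, ?_⟩
          rw [hn, hk, hMM, show 2 * L + 1 + M = (2 * L + M) + 1 by ring, pow_succ]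
          ring
        obtain ⟨k, hk⟩ := h0
        rw [hk]
        exact (Nat.coprime_add_mul_left_left _ _ _).2 hc
      rw [Nat.coprime_mul_iff_right]
      refine ⟨?_, hnb⟩
      rcases Nat.even_or_odd b with he | ho
      · exact hnb.coprime_dvd_right he.two_dvd
      · rw [Nat.coprime_two_right]
        have hpv : Odd (pv b s t L m) := by
          have := ((Pool.Agent.W139.PX.dig2 L hb hst).1 m).2.2.2
          rw [Nat.coprime_mul_iff_right, Nat.coprime_two_right] at this
          exact this.1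
        have hhx : Even (hx b M L x) := by
          have hr := rv_par ho hx2
          have h1 : Odd (b ^ (2 * L + 1 + M)) := ho.pow
          have h2 : Odd (b ^ (M - 1)) := ho.pow
          have h3 : Even (b ^ (2 * L + 1 + M) + b ^ (M - 1)) := h1.add_odd h2
          have h4 : Even (x * b ^ (2 * L + 1 + M) + rv b M x) := by
            rw [Nat.even_add, Nat.even_mul]
            have h5 : ¬ Even (b ^ (2 * L + 1 + M)) := Nat.not_even_iff_odd.2 h1
            have h6 : Even (rv b M x) ↔ Even x := by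
              rw [Nat.even_iff, Nat.even_iff, hr]
            tauto
          rw [← hadd, Nat.even_add] at h4
          tauto
        exact (ho.pow.mul hpv).add_even hhx
  · intro W x' hx1' hx2' hxx hrr L
    have h1 := hx_add hb hM hx1 L
    have h2 := hx_add hb hM hx1' L
    have h3 : hx b M L x + (b ^ (2 * L + 1 + M) + b ^ (M - 1)) ≡
        hx b M L x' + (b ^ (2 * L + 1 + M) + b ^ (M - 1)) [MOD W] := by
      rw [h1, h2]
      exact (hxx.mul_right _).add hrr
    exact Nat.ModEq.add_right_cancel' _ h3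
  · intro L x' hx1' hx2' hh
    have h1 := hx_add hb hM hx1 L
    have h2 := hx_add hb hM hx1' L
    have h3 : x * b ^ (2 * L + 1 + M) + rv b M x = x' * b ^ (2 * L + 1 + M) + rv b M x' := by
      rw [← h1, ← h2, hh]
    have hle : b ^ M ≤ b ^ (2 * L + 1 + M) := Nat.pow_le_pow_right hb0 (by omega)
    have hr1 : rv b M x < b ^ (2 * L + 1 + M) := lt_of_lt_of_le (rw_lt hb M x) hle
    have hr2 : rv b M x' < b ^ (2 * L + 1 + M) := lt_of_lt_of_le (rw_lt hb M x') hle
    have h4 := congrArg (· / b ^ (2 * L + 1 + M)) h3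
    rw [add_comm, Nat.add_mul_div_right _ _ (pow_pos hb0 _), Nat.div_eq_of_lt hr1, zero_add,
      add_comm (x' * _), Nat.add_mul_div_right _ _ (pow_pos hb0 _), Nat.div_eq_of_lt hr2,
      zero_add] at h4
    exact h4

end Pool.Agent.K3h87.PC
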